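import Mathlib

set_option autoImplicit false
set_option maxHeartbeats 4000000

namespace Pool.Agent.W959.CCN

open Filter Topology

section abs
variable {A : Type} [Ring A] [Algebra ℝ A] (st : A → A) (τ : A →ₗ[ℝ] ℝ)

theorem Qexp (hadd : ∀ a b, st (a + b) = st a + st b) (hsm : ∀ (r : ℝ) a, st (r • a) = r • st a)
    (hmul : ∀ a b, st (a * b) = st b * st a) (hst : ∀ a, st (st a) = a)
    (htst : ∀ a, τ (st a) = τ a) (x b : A) (t : ℝ) :
    τ ((x + t • b) * st (x + t • b)) =
      τ (x * st x) + 2 * t * τ (b * st x) + t ^ 2 * τ (b * st b) := by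
  have h1 : τ (x * st b) = τ (b * st x) := by
    rw [← htst (x * st b), hmul, hst]
  rw [hadd, hsm, add_mul, mul_add, mul_add, map_add, map_add, map_add, smul_mul_assoc,
    smul_mul_assoc, mul_smul_comm, mul_smul_comm, map_smul, map_smul, map_smul, map_smul,
    h1]
  simp only [smul_eq_mul]
  ring

theorem disc {p q r : ℝ} (h : ∀ t : ℝ, 0 ≤ p + 2 * t * q + t ^ 2 * r) : q ^ 2 ≤ p * r := by
  have := discrim_le_zero (a := r) (b := 2 * q) (c := p) (fun t => by
    have := h t
    nlinarith)
  unfold discrim at this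
  nlinarith

theorem keyK (hadd : ∀ a b, st (a + b) = st a + st b) (hsm : ∀ (r : ℝ) a, st (r • a) = r • st a)
    (hmul : ∀ a b, st (a * b) = st b * st a) (hst : ∀ a, st (st a) = a)
    (htst : ∀ a, τ (st a) = τ a) (hpos : ∀ a, 0 ≤ τ (a * st a)) (e : A) (δ : ℝ) (hδ : 0 < δ) :
    ∃ α, e * α = α ∧ ∀ β, e * β = β → (τ (β * st (1 - α))) ^ 2 ≤ δ * τ (β * st β) := by
  let S : Set ℝ := {q | ∃ α, e * α = α ∧ q = τ ((1 - α) * st (1 - α))}
  have hne : S.Nonempty := ⟨_, 0, mul_zero _, rfl⟩
  have hbd : BddBelow S := ⟨0, by rintro _ ⟨α, -, rfl⟩; exact hpos _⟩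
  obtain ⟨_, ⟨α, hα, rfl⟩, hlt⟩ := exists_lt_of_csInf_lt hne (lt_add_of_pos_right (sInf S) hδ)
  refine ⟨α, hα, fun β hβ => ?_⟩
  apply disc
  intro t
  have h1 : sInf S ≤ τ ((1 - (α + (-t) • β)) * st (1 - (α + (-t) • β))) := by
    apply csInf_le hbd
    refine ⟨α + (-t) • β, ?_, rfl⟩
    rw [mul_add, hα, mul_smul_comm, hβ]
  have h2 : 1 - (α + (-t) • β) = (1 - α) + t • β := by
    rw [neg_smul]; abel
  rw [h2, Qexp st τ hadd hsm hmul hst htst] at h1
  linarith

theorem badd (hadd : ∀ a b, st (a + b) = st a + st b) (hsm : ∀ (r : ℝ) a, st (r • a) = r • st a)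
    (hmul : ∀ a b, st (a * b) = st b * st a) (hst : ∀ a, st (st a) = a)
    (htst : ∀ a, τ (st a) = τ a) (hpos : ∀ a, 0 ≤ τ (a * st a)) (p q : A)
    (hp : ∃ C : ℝ, 0 ≤ C ∧ ∀ b, τ ((b * p) * st (b * p)) ≤ C * τ (b * st b))
    (hq : ∃ C : ℝ, 0 ≤ C ∧ ∀ b, τ ((b * q) * st (b * q)) ≤ C * τ (b * st b)) :
    ∃ C : ℝ, 0 ≤ C ∧ ∀ b, τ ((b * (p + q)) * st (b * (p + q))) ≤ C * τ (b * st b) := by
  obtain ⟨C1, h1, h2⟩ := hp
  obtain ⟨C2, h3, h4⟩ := hq
  refine ⟨2 * C1 + 2 * C2, by positivity, fun b => ?_⟩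
  have e1 := Qexp st τ hadd hsm hmul hst htst (b * p) (b * q) 1
  have e2 := Qexp st τ hadd hsm hmul hst htst (b * p) (b * q) (-1)
  have e3 := hpos (b * p + (-1 : ℝ) • (b * q))
  rw [one_smul] at e1
  rw [mul_add, e1]
  have e4 := h2 b
  have e5 := h4 b
  nlinarith

theorem kap (hadd : ∀ a b, st (a + b) = st a + st b) (hsm : ∀ (r : ℝ) a, st (r • a) = r • st a)
    (hmul : ∀ a b, st (a * b) = st b * st a) (hst : ∀ a, st (st a) = a)
    (htst : ∀ a, τ (st a) = τ a) (htc : ∀ a b, τ (a * b) = τ (b * a))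
    (hpos : ∀ a, 0 ≤ τ (a * st a)) (hdef : ∀ a, τ (a * st a) = 0 → a = 0)
    (hbdd : ∀ a, ∃ C : ℝ, 0 ≤ C ∧ ∀ b, τ ((b * a) * st (b * a)) ≤ C * τ (b * st b))
    (e : A) (he : e * e = e) (hte : τ e = 0) : e = 0 := by
  have hs1 : st 1 = 1 := by
    have h1 := hmul (st 1) 1
    rw [mul_one, hst, mul_one] at h1
    exact h1.symm
  have hsub : ∀ a, st (1 - a) = 1 - st a := by
    intro a
    have h1 := hadd 1 ((-1 : ℝ) • a)
    rw [hsm, hs1] at h1
    simpa [sub_eq_add_neg] using h1
  have hcs : ∀ a b, τ (b * st a) ^ 2 ≤ τ (a * st a) * τ (b * st b) := by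
    intro a b
    apply disc
    intro t
    have := hpos (a + t • b)
    rwa [Qexp st τ hadd hsm hmul hst htst] at this
  obtain ⟨C1, hC1, hb1⟩ := hbdd e
  obtain ⟨C2, hC2, hb2⟩ := hbdd (st e)
  set Qe := τ (e * st e) with hQe
  set m := Real.sqrt Qe with hm
  set M := Real.sqrt (τ ((e * st e) * st (e * st e))) with hM
  set K := Real.sqrt C1 + Real.sqrt C2 + 1 with hK
  have hm0 : 0 ≤ m := Real.sqrt_nonneg _
  have hM0 : 0 ≤ M := Real.sqrt_nonneg _
  have hK0 : 0 ≤ K := by positivity
  have hmain : ∀ s : ℝ, 0 < s → s ≤ 1 → Qe ≤ s * M + M * Real.sqrt (s * (2 * m + K ^ 2)) := by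
    intro s hs0 hs1'
    obtain ⟨α, hα, hk⟩ := keyK st τ hadd hsm hmul hst htst hpos e (s ^ 2) (by positivity)
    set q := Real.sqrt (τ (α * st α)) with hq
    have hq0 : 0 ≤ q := Real.sqrt_nonneg _
    have hqq : q ^ 2 = τ (α * st α) := Real.sq_sqrt (hpos α)
    have hk' : ∀ β, e * β = β → |τ (β * st (1 - α))| ≤ s * Real.sqrt (τ (β * st β)) := by
      intro β hβ
      have h1 := Real.abs_le_sqrt (hk β hβ)
      rwa [Real.sqrt_mul (by positivity), Real.sqrt_sq hs0.le] at h1
    -- (I)
    have h1 : |τ (e * st α)| ≤ s * m := by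
      have := hk' e he
      rw [hsub, mul_sub, mul_one, map_sub, hte, zero_sub, abs_neg] at this
      exact this
    -- (II)
    have h2 : |τ α - τ (α * e * st α)| ≤ s * (Real.sqrt C1 * q) := by
      have := hk' (α * e) (by rw [← mul_assoc, hα])
      rw [hsub, mul_sub, mul_one, map_sub, htc α e, hα] at this
      refine this.trans (mul_le_mul_of_nonneg_left ?_ hs0.le)
      rw [hq, ← Real.sqrt_mul hC1]
      exact Real.sqrt_le_sqrt (hb1 α)
    -- (III)
    have h3 : |τ (e * st α) - τ (α * e * st α)| ≤ s * (Real.sqrt C2 * q) := by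
      have := hk' (α * st e) (by rw [← mul_assoc, hα])
      have e1 : τ (α * st e) = τ (e * st α) := by
        rw [← htst (α * st e), hmul, hst]
      have e2 : τ (α * st e * st α) = τ (α * e * st α) := by
        rw [← htst (α * st e * st α), hmul, hmul, hst, hst, mul_assoc]
      rw [hsub, mul_sub, mul_one, map_sub, e1, e2] at this
      refine this.trans (mul_le_mul_of_nonneg_left ?_ hs0.le)
      rw [hq, ← Real.sqrt_mul hC2]
      exact Real.sqrt_le_sqrt (hb2 α)
    -- (IV)
    have h4 : |τ α - q ^ 2| ≤ s * q := by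
      have := hk' α hα
      rw [hsub, mul_sub, mul_one, map_sub, ← hqq] at this
      rwa [hqq] at this ⊢
    -- (V)
    have h5 : |Qe - τ ((e * st e) * st α)| ≤ s * M := by
      have := hk' (e * st e) (by rw [← mul_assoc, he])
      rw [hsub, mul_sub, mul_one, map_sub] at this
      exact this
    have h6 : |τ ((e * st e) * st α)| ≤ M * q := by
      have := Real.abs_le_sqrt (hcs α (e * st e))
      rw [mul_comm, Real.sqrt_mul (hpos _)] at this
      exact this
    have h7 : q ^ 2 ≤ s * (m + K * q) := by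
      have g1 := abs_le.1 h1
      have g2 := abs_le.1 h2
      have g3 := abs_le.1 h3
      have g4 := abs_le.1 h4
      rw [hK]
      nlinarith [g1.1, g1.2, g2.1, g2.2, g3.1, g3.2, g4.1, g4.2]
    have h8 : q ^ 2 ≤ s * (2 * m + K ^ 2) := by
      have g1 : 0 ≤ (q - s * K) ^ 2 := sq_nonneg _
      have g2 : s ^ 2 * K ^ 2 ≤ s * K ^ 2 := by
        have : s ^ 2 ≤ s := by nlinarith
        exact mul_le_mul_of_nonneg_right this (sq_nonneg _)
      nlinarith
    have h9 : q ≤ Real.sqrt (s * (2 * m + K ^ 2)) := Real.le_sqrt_of_sq_le h8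
    have g5 := abs_le.1 h5
    have g6 := abs_le.1 h6
    have h10 : M * q ≤ M * Real.sqrt (s * (2 * m + K ^ 2)) := mul_le_mul_of_nonneg_left h9 hM0
    linarith [g5.2, g6.2]
  have hlim : Tendsto (fun s : ℝ => s * M + M * Real.sqrt (s * (2 * m + K ^ 2))) (𝓝[>] 0) (𝓝 0) := by
    have h1 : Continuous (fun s : ℝ => s * M + M * Real.sqrt (s * (2 * m + K ^ 2))) := by fun_prop
    have h2 := h1.tendsto 0
    simp only [zero_mul, Real.sqrt_zero, mul_zero, add_zero] at h2
    exact h2.mono_left nhdsWithin_le_nhds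
  have hle : Qe ≤ 0 := by
    refine ge_of_tendsto hlim ?_
    filter_upwards [Ioc_mem_nhdsGT (zero_lt_one (α := ℝ))] with s hs
    exact hmain s hs.1 hs.2
  exact hdef e (le_antisymm hle (hpos e))

end abs

section model
variable {G : Type} [Group G]

/-- The group algebra over the reals. -/
abbrev RG (G : Type) [Group G] : Type := MonoidAlgebra ℝ G

/-- The involution. -/
noncomputable def iv (x : RG G) : RG G := MonoidAlgebra.mapDomain (fun g => g⁻¹) x

theorem iv_add (x y : RG G) : iv (x + y) = iv x + iv y := MonoidAlgebra.mapDomain_add _ _ _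

theorem iv_zero : iv (0 : RG G) = 0 := MonoidAlgebra.mapDomain_zero _

theorem iv_single (g : G) (r : ℝ) : iv (MonoidAlgebra.single g r) = MonoidAlgebra.single g⁻¹ r :=
  MonoidAlgebra.mapDomain_single

theorem iv_mul (x y : RG G) : iv (x * y) = iv y * iv x := by
  induction x using MonoidAlgebra.induction_linear with
  | zero => simp [iv_zero]
  | add a b ha hb => rw [add_mul, iv_add, iv_add, ha, hb, mul_add]
  | single g r =>
    induction y using MonoidAlgebra.induction_linear with
    | zero => simp [iv_zero]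
    | add a b ha hb => rw [mul_add, iv_add, iv_add, ha, hb, add_mul]
    | single h s =>
      rw [MonoidAlgebra.single_mul_single, iv_single, iv_single, iv_single,
        MonoidAlgebra.single_mul_single, mul_inv_rev, mul_comm r s]

theorem iv_iv (x : RG G) : iv (iv x) = x := by
  induction x using MonoidAlgebra.induction_linear with
  | zero => simp [iv_zero]
  | add a b ha hb => rw [iv_add, iv_add, ha, hb]
  | single g r => rw [iv_single, iv_single, inv_inv]

theorem iv_smul (r : ℝ) (x : RG G) : iv (r • x) = r • iv x := by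
  induction x using MonoidAlgebra.induction_linear with
  | zero => simp [iv_zero]
  | add a b ha hb => rw [smul_add, iv_add, iv_add, ha, hb, smul_add]
  | single g s => rw [MonoidAlgebra.smul_single, iv_single, iv_single, MonoidAlgebra.smul_single]

theorem t_iv (x : RG G) : (iv x).coeff 1 = x.coeff 1 := by
  classical
  induction x using MonoidAlgebra.induction_linear with
  | zero => simp [iv_zero]
  | add a b ha hb => rw [iv_add, MonoidAlgebra.coeff_add, MonoidAlgebra.coeff_add]; simp [ha, hb]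
  | single g s =>
    rw [iv_single, MonoidAlgebra.coeff_single, MonoidAlgebra.coeff_single, Finsupp.single_apply,
      Finsupp.single_apply]
    simp

theorem t_comm (x y : RG G) : (x * y).coeff 1 = (y * x).coeff 1 := by
  classical
  induction x using MonoidAlgebra.induction_linear with
  | zero => simp
  | add a b ha hb =>
    rw [add_mul, mul_add, MonoidAlgebra.coeff_add, MonoidAlgebra.coeff_add]
    simp [ha, hb]
  | single g r =>
    rw [MonoidAlgebra.coeff_single_mul_apply, MonoidAlgebra.coeff_mul_single_apply]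
    simp [mul_comm]

theorem iv_coeff (x : RG G) (g : G) : (iv x).coeff g = x.coeff g⁻¹ := by
  classical
  induction x using MonoidAlgebra.induction_linear with
  | zero => simp [iv_zero]
  | add a b ha hb => rw [iv_add, MonoidAlgebra.coeff_add, MonoidAlgebra.coeff_add]; simp [ha, hb]
  | single h s =>
    rw [iv_single, MonoidAlgebra.coeff_single, MonoidAlgebra.coeff_single, Finsupp.single_apply,
      Finsupp.single_apply]
    simp [inv_eq_iff_eq_inv]

theorem N_eq (x : RG G) : (x * iv x).coeff 1 = ∑ g ∈ x.coeff.support, (x.coeff g) ^ 2 := by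
  rw [MonoidAlgebra.coeff_mul_apply_left, Finsupp.sum]
  refine Finset.sum_congr rfl fun g _ => ?_
  rw [iv_coeff, mul_one, inv_inv, sq]

theorem N_nonneg (x : RG G) : 0 ≤ (x * iv x).coeff 1 := by
  rw [N_eq]
  positivity

theorem N_def (x : RG G) (h : (x * iv x).coeff 1 = 0) : x = 0 := by
  rw [N_eq] at h
  apply MonoidAlgebra.coeff_injective
  ext g
  by_contra hg
  have h1 : g ∈ x.coeff.support := Finsupp.mem_support_iff.2 hg
  have h2 := (Finset.sum_eq_zero_iff_of_nonneg (fun i _ => sq_nonneg _)).1 h g h1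
  exact hg (pow_eq_zero_iff (two_ne_zero)|>.1 h2)

/-- The involution as a homomorphism. -/
noncomputable def ivH : RG G →+ RG G := ⟨⟨iv, iv_zero⟩, iv_add⟩

/-- The coefficient of the neutral element. -/
noncomputable def tH : RG G →+ ℝ where
  toFun x := x.coeff 1
  map_zero' := by simp
  map_add' x y := by rw [MonoidAlgebra.coeff_add]; rfl

variable {n : ℕ}

/-- The involution of the matrix algebra. -/
noncomputable def St (a : Matrix (Fin n) (Fin n) (RG G)) : Matrix (Fin n) (Fin n) (RG G) :=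
  fun i j => iv (a j i)

/-- The trace. -/
noncomputable def tr : Matrix (Fin n) (Fin n) (RG G) →ₗ[ℝ] ℝ where
  toFun a := ∑ i, tH (a i i)
  map_add' a b := by
    rw [← Finset.sum_add_distrib]
    exact Finset.sum_congr rfl fun i _ => map_add tH _ _
  map_smul' r a := by
    rw [RingHom.id_apply, smul_eq_mul, Finset.mul_sum]
    refine Finset.sum_congr rfl fun i _ => ?_
    show ((r • a) i i).coeff 1 = r * (a i i).coeff 1
    rw [Matrix.smul_apply, MonoidAlgebra.coeff_smul]
    rfl

theorem tr_mul (a b : Matrix (Fin n) (Fin n) (RG G)) :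
    tr (a * b) = ∑ i, ∑ k, (a i k * b k i).coeff 1 := by
  show ∑ i, tH ((a * b) i i) = _
  refine Finset.sum_congr rfl fun i _ => ?_
  rw [Matrix.mul_apply, map_sum]
  rfl

theorem tr_Q (a : Matrix (Fin n) (Fin n) (RG G)) :
    tr (a * St a) = ∑ i, ∑ k, (a i k * iv (a i k)).coeff 1 := tr_mul a (St a)

theorem St_add (a b : Matrix (Fin n) (Fin n) (RG G)) : St (a + b) = St a + St b := by
  funext i j
  exact iv_add _ _

theorem St_smul (r : ℝ) (a : Matrix (Fin n) (Fin n) (RG G)) : St (r • a) = r • St a := by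
  funext i j
  exact iv_smul _ _

theorem St_St (a : Matrix (Fin n) (Fin n) (RG G)) : St (St a) = a := by
  funext i j
  exact iv_iv _

theorem St_mul (a b : Matrix (Fin n) (Fin n) (RG G)) : St (a * b) = St b * St a := by
  funext i j
  show ivH ((a * b) j i) = (St b * St a) i j
  rw [Matrix.mul_apply, Matrix.mul_apply, map_sum]
  exact Finset.sum_congr rfl fun k _ => iv_mul _ _

theorem tr_St (a : Matrix (Fin n) (Fin n) (RG G)) : tr (St a) = tr a := by
  show ∑ i, tH (St a i i) = ∑ i, tH (a i i)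
  exact Finset.sum_congr rfl fun i _ => t_iv (a i i)

theorem tr_comm (a b : Matrix (Fin n) (Fin n) (RG G)) : tr (a * b) = tr (b * a) := by
  rw [tr_mul, tr_mul, Finset.sum_comm]
  exact Finset.sum_congr rfl fun i _ => Finset.sum_congr rfl fun k _ => t_comm _ _

theorem Q_nonneg (a : Matrix (Fin n) (Fin n) (RG G)) : 0 ≤ tr (a * St a) := by
  rw [tr_Q]
  exact Finset.sum_nonneg fun i _ => Finset.sum_nonneg fun k _ => N_nonneg _

theorem Q_def (a : Matrix (Fin n) (Fin n) (RG G)) (h : tr (a * St a) = 0) : a = 0 := by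
  rw [tr_Q] at h
  have h1 := (Finset.sum_eq_zero_iff_of_nonneg
    (fun i _ => Finset.sum_nonneg fun k _ => N_nonneg (a i k))).1 h
  funext i j
  have h2 := (Finset.sum_eq_zero_iff_of_nonneg (fun k _ => N_nonneg (a i k))).1
    (h1 i (Finset.mem_univ _))
  exact N_def _ (h2 j (Finset.mem_univ _))

theorem N_mul_single (y : RG G) (g : G) (r : ℝ) :
    ((y * MonoidAlgebra.single g r) * iv (y * MonoidAlgebra.single g r)).coeff 1 =
      r ^ 2 * (y * iv y).coeff 1 := by
  have h1 : (y * MonoidAlgebra.single g r) * iv (y * MonoidAlgebra.single g r) =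
      (y * MonoidAlgebra.single 1 (r * r)) * iv y := by
    rw [iv_mul, iv_single, mul_assoc, ← mul_assoc (MonoidAlgebra.single g r),
      MonoidAlgebra.single_mul_single, mul_inv_cancel, ← mul_assoc]
  have h2 : MonoidAlgebra.single (1 : G) (r * r) = (r * r) • (1 : RG G) := by
    rw [MonoidAlgebra.one_def, MonoidAlgebra.smul_single, smul_eq_mul, mul_one]
  rw [h1, h2, mul_smul_comm, mul_one, smul_mul_assoc, MonoidAlgebra.coeff_smul, Finsupp.smul_apply,
    smul_eq_mul, sq]

theorem bdd (a : Matrix (Fin n) (Fin n) (RG G)) :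
    ∃ C : ℝ, 0 ≤ C ∧ ∀ b, tr ((b * a) * St (b * a)) ≤ C * tr (b * St b) := by
  have hadd := badd (A := Matrix (Fin n) (Fin n) (RG G)) St tr St_add St_smul St_mul St_St tr_St
    Q_nonneg
  have hzero : ∃ C : ℝ, 0 ≤ C ∧ ∀ b : Matrix (Fin n) (Fin n) (RG G),
      tr ((b * 0) * St (b * 0)) ≤ C * tr (b * St b) :=
    ⟨0, le_rfl, fun b => by rw [mul_zero, zero_mul, map_zero, zero_mul]⟩
  induction a using Matrix.induction_on' with
  | h_zero => exact hzero
  | h_add p q hp hq => exact hadd p q hp hq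
  | h_std_basis i j x =>
    induction x using MonoidAlgebra.induction_linear with
    | zero => rw [Matrix.single_zero]; exact hzero
    | add x y hx hy => rw [Matrix.single_add]; exact hadd _ _ hx hy
    | single g r =>
      refine ⟨r ^ 2, sq_nonneg _, fun b => ?_⟩
      rw [tr_Q, tr_Q, Finset.mul_sum]
      refine Finset.sum_le_sum fun k _ => ?_
      rw [Finset.sum_eq_single j]
      · rw [Matrix.mul_single_apply_same, N_mul_single]
        refine mul_le_mul_of_nonneg_left ?_ (sq_nonneg _)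
        exact Finset.single_le_sum (f := fun l => (b k l * iv (b k l)).coeff 1)
          (fun l _ => N_nonneg _) (Finset.mem_univ i)
      · intro l _ hl
        have h0 : (b * Matrix.single i j (MonoidAlgebra.single g r)) k l = 0 :=
          Matrix.mul_single_apply_of_ne (MonoidAlgebra.single g r) i j k l hl b
        rw [h0, zero_mul, MonoidAlgebra.coeff_zero, Finsupp.zero_apply]
      · intro h
        exact absurd (Finset.mem_univ _) h

theorem stR (G : Type) [Group G] : IsStablyFiniteRing (MonoidAlgebra ℝ G) := by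
  refine ⟨fun n => ⟨fun {a b} hab => ?_⟩⟩
  have he : (1 - b * a) * (1 - b * a) = 1 - b * a := by
    have h1 : b * a * (b * a) = b * a := by
      rw [mul_assoc, ← mul_assoc a b a, hab, one_mul]
    rw [sub_mul, one_mul, mul_sub, mul_one, h1, sub_self, sub_zero]
  have ht : tr (1 - b * a : Matrix (Fin n) (Fin n) (RG G)) = 0 := by
    rw [map_sub, tr_comm b a, hab, sub_self]
  have := kap St tr St_add St_smul St_mul St_St tr_St tr_comm Q_nonneg Q_def bdd _ he ht
  exact (sub_eq_zero.1 this).symm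

end model

/-- **Kaplansky**: the integral group ring is stably finite. -/
theorem stablyFinite (G : Type) [Group G] : IsStablyFiniteRing (MonoidAlgebra ℤ G) := by
  have := stR G
  refine IsStablyFiniteRing.of_injective (MonoidAlgebra.mapRingHom G (Int.castRingHom ℝ)) ?_
  rw [MonoidAlgebra.coe_mapRingHom]
  exact MonoidAlgebra.map_injective _ Int.cast_injective

end Pool.Agent.W959.CCN
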